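import Mathlib
import Pool.Agent.Zk12.HD.Stm
import Pool.Agent.Y791.BS.Loc

/-!
# Project HD: change of the value of `t₀` by an embedding in a completion
-/

set_option autoImplicit false
set_option linter.all false

open Polynomial IsDedekindDomain NumberField

namespace Pool.Agent.Zk95.HD

/-- embeddings of `k₁(t₀)` -/
theorem exists_emb {k₁ k R : Type} [Field k₁] [Field k] [Field R] [Algebra k₁ k] [Algebra k₁ R]
    (t₀ : k) (ht : Transcendental k₁ t₀) (hgen : IntermediateField.adjoin k₁ {t₀} = ⊤)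
    (τ : R) (hτ : Transcendental k₁ τ) : ∃ ψ : k →ₐ[k₁] R, ψ t₀ = τ := by
  let e₁ := RatFunc.algEquivOfTranscendental t₀ ht
  let e₂ := RatFunc.algEquivOfTranscendental τ hτ
  let e₃ : IntermediateField.adjoin k₁ {t₀} ≃ₐ[k₁] k :=
    (IntermediateField.equivOfEq hgen).trans IntermediateField.topEquiv
  refine ⟨((IntermediateField.adjoin k₁ {τ}).val.comp e₂.toAlgHom).comp
    (e₁.symm.toAlgHom.comp e₃.symm.toAlgHom), ?_⟩
  have h1 : e₃ (IntermediateField.AdjoinSimple.gen k₁ t₀) = t₀ := rfl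
  have h2 : e₃.symm t₀ = IntermediateField.AdjoinSimple.gen k₁ t₀ := by
    rw [AlgEquiv.symm_apply_eq, h1]
  have h3 : e₁.symm (IntermediateField.AdjoinSimple.gen k₁ t₀) = RatFunc.X :=
    RatFunc.algEquivOfTranscendental_symm_gen t₀ ht
  show ((e₂ (e₁.symm (e₃.symm t₀)) : IntermediateField.adjoin k₁ {τ}) : R) = τ
  rw [h2, h3]
  exact RatFunc.algEquivOfTranscendental_X τ hτ

/-- elements near to `1` are squares -/
theorem near_sq (L : Type) [NontriviallyNormedField L] [CompleteSpace L] [CharZero L] :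
    ∃ ε : ℝ, 0 < ε ∧ ∀ z : L, ‖z - 1‖ < ε → ∃ w : L, w ≠ 0 ∧ w ^ 2 = z := by
  have h1 : HasStrictDerivAt (fun x : L => x ^ 2) (2 * 1 : L) 1 := by
    have := hasStrictDerivAt_pow 2 (1 : L)
    simpa using this
  have h2 := h1.map_nhds_eq (by norm_num)
  have h3 : (fun x : L => x ^ 2) '' {x | x ≠ 0} ∈ nhds ((fun x : L => x ^ 2) 1) := by
    rw [← h2]
    exact Filter.image_mem_map (isOpen_ne.mem_nhds one_ne_zero)
  have h4 : (fun x : L => x ^ 2) 1 = (1 : L) := one_pow 2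
  rw [h4] at h3
  obtain ⟨ε, hε, h5⟩ := Metric.mem_nhds_iff.1 h3
  refine ⟨ε, hε, fun z hz => ?_⟩
  obtain ⟨w, hw, hwz⟩ := h5 (show z ∈ Metric.ball 1 ε by rwa [Metric.mem_ball, dist_eq_norm])
  exact ⟨w, hw, hwz⟩

/-- polynomials near infinity -/
theorem near_inf {L : Type} [NontriviallyNormedField L] (P : L[X]) (hP : P ≠ 0) (ε : ℝ) (hε : 0 < ε) :
    ∃ δ : ℝ, 0 < δ ∧ ∀ T : L, T ≠ 0 → ‖T⁻¹‖ < δ →
      ∃ u : L, ‖u - 1‖ < ε ∧ P.eval T = P.leadingCoeff * T ^ P.natDegree * u := by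
  have hc : P.leadingCoeff ≠ 0 := leadingCoeff_ne_zero.2 hP
  have h1 : ContinuousAt (fun z : L => P.reverse.eval z / P.leadingCoeff) 0 :=
    (P.reverse.continuous.div_const _).continuousAt
  have h2 : P.reverse.eval 0 / P.leadingCoeff = 1 := by
    rw [← coeff_zero_eq_eval_zero, coeff_zero_reverse, div_self hc]
  obtain ⟨δ, hδ, h3⟩ := Metric.continuousAt_iff.1 h1 ε hε
  refine ⟨δ, hδ, fun T hT hTδ => ?_⟩
  refine ⟨P.reverse.eval T⁻¹ / P.leadingCoeff, ?_, ?_⟩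
  · have h4 := h3 (show dist T⁻¹ 0 < δ by rwa [dist_zero_right])
    rwa [h2, dist_eq_norm] at h4
  · haveI : Invertible T := invertibleOfNonzero hT
    have h4 := eval₂_reverse_mul_pow (RingHom.id L) T P
    rw [invOf_eq_inv] at h4
    have h5 : P.reverse.eval T⁻¹ * T ^ P.natDegree = P.eval T := h4
    rw [← h5]
    field_simp

/-- the theorem for complete fields -/
theorem core {k₁ k L : Type} [Field k₁] [CharZero k₁] [Field k] [Algebra k₁ k] (t₀ : k)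
    (ht : Transcendental k₁ t₀) (hgen : IntermediateField.adjoin k₁ {t₀} = ⊤) (D : k₁[X])
    (hodd : Odd D.natDegree) [NontriviallyNormedField L] [CompleteSpace L] (φ : k →+* L) (ϖ : L)
    (h0 : ϖ ≠ 0) (h1 : ‖ϖ‖ < 1)
    (halg : ∃ p : ℤ[X], p ≠ 0 ∧ p.eval₂ (Int.castRingHom L) ϖ = 0) :
    ∃ (φ' : k →+* L) (η : L), η ≠ 0 ∧ (∀ c : k₁, φ' (algebraMap k₁ k c) = φ (algebraMap k₁ k c)) ∧
      φ' (aeval t₀ D) = ϖ * φ (aeval t₀ D) * η ^ 2 := by
  haveI : CharZero k := charZero_of_injective_algebraMap (FaithfulSMul.algebraMap_injective k₁ k)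
  haveI : CharZero L := charZero_of_injective_ringHom φ.injective
  letI : Algebra k₁ L := (φ.comp (algebraMap k₁ k)).toAlgebra
  have hmap : ∀ c : k₁, algebraMap k₁ L c = φ (algebraMap k₁ k c) := fun c => rfl
  have hae : ∀ p : k₁[X], φ (aeval t₀ p) = aeval (φ t₀) p := by
    intro p
    rw [aeval_def, aeval_def, hom_eval₂]
    rfl
  have hD0 : D ≠ 0 := by
    rintro rfl
    simp at hodd
  have hTtr : Transcendental k₁ (φ t₀) := by
    rintro ⟨p, hp, hp0⟩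
    rw [← hae, _root_.map_eq_zero] at hp0
    exact ht ⟨p, hp, hp0⟩
  have hdtr : Transcendental k₁ (aeval (φ t₀) D) := by
    refine hTtr.aeval D ?_ ?_
    · intro h; rw [h] at hodd; simp at hodd
    · exact mem_nonZeroDivisors_of_ne_zero (leadingCoeff_ne_zero.2 hD0)
  have hd0 : aeval (φ t₀) D ≠ 0 := by
    intro h
    rw [h] at hdtr
    exact hdtr isAlgebraic_zero
  obtain ⟨d, hd⟩ : ∃ d, d = aeval (φ t₀) D := ⟨_, rfl⟩
  rw [← hd] at hdtr hd0
  obtain ⟨c, hc⟩ : ∃ c, c = algebraMap k₁ L D.leadingCoeff := ⟨_, rfl⟩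
  have hc0 : c ≠ 0 := by
    rw [hc]; exact (_root_.map_ne_zero _).2 (leadingCoeff_ne_zero.2 hD0)
  have hϖalg : IsAlgebraic k₁ ϖ := by
    obtain ⟨p, hp, hp0⟩ := halg
    refine ⟨p.map (Int.castRingHom k₁),
      (Polynomial.map_ne_zero_iff (RingHom.injective_int _)).2 hp, ?_⟩
    rw [aeval_def, eval₂_map, RingHom.ext_int ((algebraMap k₁ L).comp (Int.castRingHom k₁))
      (Int.castRingHom L)]
    exact hp0
  -- near infinity
  have hinj : Function.Injective (algebraMap k₁ L) := FaithfulSMul.algebraMap_injective k₁ L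
  obtain ⟨ε, hε, hsq⟩ := near_sq L
  have hP0 : D.map (algebraMap k₁ L) ≠ 0 := (Polynomial.map_ne_zero_iff hinj).2 hD0
  obtain ⟨δ, hδ, hinf⟩ := near_inf (D.map (algebraMap k₁ L)) hP0 ε hε
  rw [natDegree_map, leadingCoeff_map, ← hc] at hinf
  obtain ⟨m, hm⟩ := exists_pow_lt_of_lt_one (div_pos hδ (by positivity : 0 < ‖(c * d)⁻¹‖ + 1)) h1
  obtain ⟨T, hT⟩ : ∃ T, T = ϖ * (c * d) * ((ϖ ^ (m + 1))⁻¹) ^ 2 := ⟨_, rfl⟩
  have hcd : c * d ≠ 0 := mul_ne_zero hc0 hd0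
  have hT0 : T ≠ 0 := by
    rw [hT]
    exact mul_ne_zero (mul_ne_zero h0 hcd) (pow_ne_zero 2 (inv_ne_zero (pow_ne_zero _ h0)))
  have hTinv : T⁻¹ = ϖ ^ (2 * m + 1) * (c * d)⁻¹ := by
    rw [hT]
    field_simp
    ring
  have hTsmall : ‖T⁻¹‖ < δ := by
    rw [hTinv, norm_mul, norm_pow]
    rw [lt_div_iff₀ (by positivity)] at hm
    refine lt_of_le_of_lt ?_ hm
    refine mul_le_mul ?_ (by linarith) (norm_nonneg _) (by positivity)
    exact pow_le_pow_of_le_one (norm_nonneg _) h1.le (by omega)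
  have hTtr' : Transcendental k₁ T := by
    intro h
    apply hdtr
    have h2 : d = c⁻¹ * (T * ϖ ^ (2 * m + 1)) := by
      have h3 : T * T⁻¹ = 1 := mul_inv_cancel₀ hT0
      rw [hTinv] at h3
      field_simp at h3 ⊢
      linear_combination -h3
    rw [h2]
    refine IsAlgebraic.mul ?_ (h.mul (hϖalg.pow _))
    rw [hc, ← map_inv₀]
    exact isAlgebraic_algebraMap _
  obtain ⟨ψ, hψ⟩ := exists_emb t₀ ht hgen T hTtr'
  obtain ⟨u, hu, huD⟩ := hinf T hT0 hTsmall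
  obtain ⟨w, hw, hwu⟩ := hsq u hu
  obtain ⟨ν, hν⟩ := hodd
  refine ⟨ψ.toRingHom, c * (ϖ ^ (m + 1))⁻¹ * T ^ ν * w, ?_, ?_, ?_⟩
  · exact mul_ne_zero (mul_ne_zero (mul_ne_zero hc0 (inv_ne_zero (pow_ne_zero _ h0)))
      (pow_ne_zero _ hT0)) hw
  · intro c'
    exact ψ.commutes c'
  · have h2 : ψ.toRingHom (aeval t₀ D) = (D.map (algebraMap k₁ L)).eval T := by
      have h3 : ψ.toRingHom (aeval t₀ D) = aeval (ψ t₀) D := (aeval_algHom_apply ψ t₀ D).symm
      rw [h3, hψ, eval_map_algebraMap]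
    rw [h2, huD, hae, ← hd, ← hwu, hν]
    obtain ⟨P, hP⟩ : ∃ P, P = (ϖ ^ (m + 1))⁻¹ := ⟨_, rfl⟩
    rw [← hP] at hT ⊢
    linear_combination (c * T ^ (2 * ν) * w ^ 2) * hT

theorem embD : Pool.Agent.Zk12.HD.S_EMBD := by
  intro k₁ k _ _ _ _ t₀ ht hgen D hodd F _ w φ
  letI := Pool.Agent.Y791.BS.nnf w
  haveI : ProperSpace (w.adicCompletion F) := Pool.Agent.Y791.BS.proper w
  obtain ⟨π, hπ⟩ := w.valuation_exists_uniformizer' F
  obtain ⟨ϖ, hϖ⟩ : ∃ ϖ : w.adicCompletion F, ϖ = algebraMap F (w.adicCompletion F) (algebraMap (𝓞 F) F π) :=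
    ⟨_, rfl⟩
  have hv : Valued.v ϖ = WithZero.exp (-1 : ℤ) := by
    rw [hϖ, ← hπ]
    exact HeightOneSpectrum.valuedAdicCompletion_eq_valuation' w _
  have h0 : ϖ ≠ 0 := by
    intro h
    rw [h, map_zero] at hv
    exact WithZero.exp_ne_zero hv.symm
  have h1 : ‖ϖ‖ < 1 := by
    rw [Valued.toNormedField.norm_lt_one_iff, hv, ← WithZero.exp_zero, WithZero.exp_lt_exp]
    norm_num
  have halg : ∃ p : ℤ[X], p ≠ 0 ∧ p.eval₂ (Int.castRingHom (w.adicCompletion F)) ϖ = 0 := by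
    obtain ⟨p, hp, hp0⟩ := RingOfIntegers.isIntegral π
    refine ⟨p, hp.ne_zero, ?_⟩
    have h2 := congrArg ((algebraMap F (w.adicCompletion F)).comp (algebraMap (𝓞 F) F)) hp0
    rw [hom_eval₂, map_zero] at h2
    rw [hϖ, ← h2]
    congr 1
    exact RingHom.ext_int _ _
  obtain ⟨φ', η, hη, hφ1, hφ2⟩ := core t₀ ht hgen D hodd φ ϖ h0 h1 halg
  refine ⟨ϖ, φ', η, hη, ?_, hφ1, hφ2⟩
  intro a b hb hab
  have h2 := congrArg Valued.v hab
  rw [map_mul, map_pow, map_pow, hv] at h2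
  have hvb : Valued.v b ≠ 0 := (Valuation.ne_zero_iff _).2 hb
  have ha : a ≠ 0 := by
    rintro rfl
    rw [zero_pow two_ne_zero] at hab
    exact (mul_ne_zero h0 (pow_ne_zero 2 hb)) hab.symm
  have hva : Valued.v a ≠ 0 := (Valuation.ne_zero_iff _).2 ha
  rw [← WithZero.exp_log hva, ← WithZero.exp_log hvb, ← WithZero.exp_nsmul, ← WithZero.exp_nsmul,
    ← WithZero.exp_add, WithZero.exp_inj] at h2
  simp only [smul_eq_mul, nsmul_eq_mul] at h2
  push_cast at h2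
  omega

end Pool.Agent.Zk95.HD
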