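import Mathlib
import Pool.Agent.Zk12.HD.Stm3

/-!
# Project HD: the classes of the coordinates of a point of an elliptic curve
-/

set_option autoImplicit false
set_option linter.all false

open Polynomial

namespace Pool.Agent.Zk95.HD

open Pool.Agent.TH954 Pool.Agent.Zk12.FG Pool.Agent.Zk12.HT Pool.Agent.Zk12.GT Pool.Agent.Zk12.HD

section
variable {k F Ω B : Type} [Field k] [Field F] [Field Ω] [Field B] [Algebra k F] [Algebra F Ω]
    [Algebra k Ω] [Algebra k B] [IsScalarTower k F Ω] [IsAlgClosure F Ω] [IsAlgClosure k B]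

theorem fix_base (s : GalSection k F Ω B) (z : k) (g : B ≃ₐ[k] B) :
    s.s g (algebraMap k Ω z) = algebraMap k Ω z := by
  rw [IsScalarTower.algebraMap_apply k F Ω, (s.s g).commutes]

theorem fsq_mul {s : GalSection k F Ω B} {z z' : Ω} (h : FSq s z) (u : Ω) (hu : ∀ g, s.s g u = u)
    (hz : z' = u ^ 2 * z) : FSq s z' := by
  obtain ⟨w, hw, rfl⟩ := h
  refine ⟨u * w, fun g => ?_, ?_⟩
  · rw [map_mul, hu, hw]
  · rw [hz, mul_pow]

end

theorem fourD (h : S_PFIX) : S_FOURD := by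
  intro k₁ k F Ω B _ _ _ _ _ _ _ _ _ _ _ _ _ _ t₀ hStar ht hgen D hD hodd s X hX hXk a b c hab hbc hac
    a' b' c' ha' hb' hc' hsq
  classical
  obtain ⟨β, hβ⟩ := Infinite.exists_notMem_finset ({a, b, c} : Finset k₁)
  simp only [Finset.mem_insert, Finset.mem_singleton, not_or] at hβ
  obtain ⟨hβa, hβb, hβc⟩ := hβ
  obtain ⟨φ, hφ⟩ : ∃ φ : k₁ →+* Ω, ∀ z, algebraMap k Ω (algebraMap k₁ k z) = φ z :=
    ⟨(algebraMap k Ω).comp (algebraMap k₁ k), fun _ => rfl⟩
  have hφfix : ∀ z g, s.s g (φ z) = φ z := fun z g => by rw [← hφ]; exact fix_base s _ g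
  rw [hφ] at ha' hb' hc'
  have hXβ : X - φ β ≠ 0 := fun h0 => hXk (algebraMap k₁ k β) (by rw [hφ]; exact sub_eq_zero.1 h0)
  have hne : ∀ z w : k₁, z ≠ w → φ z - φ w ≠ 0 := fun z w hzw h0 =>
    hzw (φ.injective (sub_eq_zero.1 h0))
  have h1 : a' - φ β ≠ 0 := by rw [ha']; exact hne _ _ (Ne.symm hβa)
  have h2 : b' - φ β ≠ 0 := by rw [hb']; exact hne _ _ (Ne.symm hβb)
  have h3 : c' - φ β ≠ 0 := by rw [hc']; exact hne _ _ (Ne.symm hβc)
  have ha0 : a - β ≠ 0 := sub_ne_zero.2 (Ne.symm hβa)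
  have hb0 : b - β ≠ 0 := sub_ne_zero.2 (Ne.symm hβb)
  have hc0 : c - β ≠ 0 := sub_ne_zero.2 (Ne.symm hβc)
  obtain ⟨X', hX'⟩ : ∃ X', X' = (X - φ β)⁻¹ := ⟨_, rfl⟩
  have hX'fix : ∀ g, s.s g X' = X' := fun g => by rw [hX', map_inv₀, map_sub, hX, hφfix]
  have hX'0 : X' ≠ 0 := by rw [hX']; exact inv_ne_zero hXβ
  have hX'k : ∀ z : k, X' ≠ algebraMap k Ω z := by
    intro z hz
    apply hXk (algebraMap k₁ k β + z⁻¹)
    have h4 : X - φ β = (algebraMap k Ω z)⁻¹ := by rw [← hz, hX', inv_inv]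
    rw [map_add, hφ, map_inv₀, ← h4]
    ring
  obtain ⟨e, he⟩ : ∃ e : Fin 4 → k₁, e = ![0, (a - β)⁻¹, (b - β)⁻¹, (c - β)⁻¹] := ⟨_, rfl⟩
  have he0 : e 0 = 0 := by rw [he]; rfl
  have he1 : e 1 = (a - β)⁻¹ := by rw [he]; rfl
  have he2 : e 2 = (b - β)⁻¹ := by rw [he]; rfl
  have he3 : e 3 = (c - β)⁻¹ := by rw [he]; rfl
  have hinj : Function.Injective e := by
    intro i j hij
    rw [he] at hij
    have e12 : (a - β)⁻¹ ≠ (b - β)⁻¹ := fun h0 => hab (sub_left_inj.1 (inv_injective h0))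
    have e13 : (a - β)⁻¹ ≠ (c - β)⁻¹ := fun h0 => hac (sub_left_inj.1 (inv_injective h0))
    have e23 : (b - β)⁻¹ ≠ (c - β)⁻¹ := fun h0 => hbc (sub_left_inj.1 (inv_injective h0))
    have e01 := inv_ne_zero ha0
    have e02 := inv_ne_zero hb0
    have e03 := inv_ne_zero hc0
    fin_cases i <;> fin_cases j <;> first | rfl | (exfalso; revert hij; simp only [Fin.mk_zero, Fin.mk_one, Fin.reduceFinMk, Matrix.cons_val, Matrix.cons_val_zero, Matrix.cons_val_one]; first | exact e12 | exact e13 | exact e23 | exact e12.symm | exact e13.symm | exact e23.symm | exact e01 | exact e02 | exact e03 | exact e01.symm | exact e02.symm | exact e03.symm)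
  obtain ⟨u, hu⟩ : ∃ u : k₁, u = -((a - β) * (b - β) * (c - β)) := ⟨_, rfl⟩
  have hu0 : u ≠ 0 := by rw [hu]; exact neg_ne_zero.2 (mul_ne_zero (mul_ne_zero ha0 hb0) hc0)
  have hD' : Irreducible (C u * D) :=
    (irreducible_isUnit_mul (isUnit_C.2 (isUnit_iff_ne_zero.2 hu0))).2 hD
  have hodd' : Odd (C u * D).natDegree := by rwa [natDegree_C_mul hu0]
  have hφu : φ u = -((a' - φ β) * (b' - φ β) * (c' - φ β)) := by
    rw [hu, ha', hb', hc', map_neg, map_mul, map_mul, map_sub, map_sub, map_sub]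
  have hD'v : algebraMap k Ω (aeval t₀ (C u * D)) = φ u * algebraMap k Ω (aeval t₀ D) := by
    rw [map_mul, map_mul, aeval_C, hφ]
  have g1 : φ (a - β)⁻¹ = (a' - φ β)⁻¹ := by rw [ha', map_inv₀, map_sub]
  have g2 : φ (b - β)⁻¹ = (b' - φ β)⁻¹ := by rw [hb', map_inv₀, map_sub]
  have g3 : φ (c - β)⁻¹ = (c' - φ β)⁻¹ := by rw [hc', map_inv₀, map_sub]
  have hsq' : FSq s (algebraMap k Ω (aeval t₀ (C u * D)) *
      ∏ i, (X' - algebraMap k Ω (algebraMap k₁ k (e i)))) := by
    refine fsq_mul hsq (X' ^ 2) (fun g => by rw [map_pow, hX'fix]) ?_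
    rw [Fin.prod_univ_four, hD'v, hφ, hφ, hφ, hφ, he0, he1, he2, he3, g1, g2, g3, hφu, map_zero, hX']
    field_simp
    ring
  obtain ⟨i, hi⟩ := h k₁ k F Ω B t₀ hStar ht hgen (C u * D) hD' hodd' s X' hX'fix hX'k 4
    (by decide) e hinj hsq'
  have hfixsub : ∀ z, (∀ g, s.s g z = z) → ∀ g, s.s g (z - φ β) = z - φ β := fun z hz g => by
    rw [map_sub, hz, hφfix]
  have fa : ∀ g, s.s g a' = a' := fun g => by rw [ha', hφfix]
  have fb : ∀ g, s.s g b' = b' := fun g => by rw [hb', hφfix]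
  have fc : ∀ g, s.s g c' = c' := fun g => by rw [hc', hφfix]
  have key : ∀ (y z : Ω) (Y : Ω), (∀ g, s.s g y = y) → (∀ g, s.s g z = z) → ∀ W : Ω,
      W = ((X - φ β) * (y - φ β) * (z - φ β)) ^ 2 * Y → FSq s Y → FSq s W := by
    intro y z Y hy hz W hW hY
    refine fsq_mul hY ((X - φ β) * (y - φ β) * (z - φ β)) (fun g => ?_) hW
    rw [map_mul, map_mul, hfixsub X hX, hfixsub y hy, hfixsub z hz]
  fin_cases i
  · left
    constructor
    · refine key a' b' _ fa fb _ ?_ (hi 1 2 (by decide) (by decide))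
      show _ = _ * ((X' - algebraMap k Ω (algebraMap k₁ k (e 1))) * (X' - algebraMap k Ω (algebraMap k₁ k (e 2))) *
        algebraMap k Ω (algebraMap k₁ k ((e 0 - e 1) * (e 0 - e 2))))
      rw [hφ, hφ, hφ, he0, he1, he2, map_mul, map_sub, map_sub, map_zero, g1, g2, hX']
      field_simp
      ring
    · refine key b' c' _ fb fc _ ?_ (hi 2 3 (by decide) (by decide))
      show _ = _ * ((X' - algebraMap k Ω (algebraMap k₁ k (e 2))) * (X' - algebraMap k Ω (algebraMap k₁ k (e 3))) *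
        algebraMap k Ω (algebraMap k₁ k ((e 0 - e 2) * (e 0 - e 3))))
      rw [hφ, hφ, hφ, he0, he2, he3, map_mul, map_sub, map_sub, map_zero, g2, g3, hX']
      field_simp
      ring
  · right; left
    constructor
    · refine key a' b' _ fa fb _ ?_ (hi 0 2 (by decide) (by decide))
      show _ = _ * ((X' - algebraMap k Ω (algebraMap k₁ k (e 0))) * (X' - algebraMap k Ω (algebraMap k₁ k (e 2))) *
        algebraMap k Ω (algebraMap k₁ k ((e 1 - e 0) * (e 1 - e 2))))
      rw [hφ, hφ, hφ, he0, he1, he2, map_mul, map_sub, map_sub, map_zero, g1, g2, hX']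
      field_simp
      ring
    · refine key a' c' _ fa fc _ ?_ (hi 0 3 (by decide) (by decide))
      show _ = _ * ((X' - algebraMap k Ω (algebraMap k₁ k (e 0))) * (X' - algebraMap k Ω (algebraMap k₁ k (e 3))) *
        algebraMap k Ω (algebraMap k₁ k ((e 1 - e 0) * (e 1 - e 3))))
      rw [hφ, hφ, hφ, he0, he1, he3, map_mul, map_sub, map_sub, map_zero, g1, g3, hX']
      field_simp
      ring
  · right; right; left
    constructor
    · refine key b' a' _ fb fa _ ?_ (hi 0 1 (by decide) (by decide))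
      show _ = _ * ((X' - algebraMap k Ω (algebraMap k₁ k (e 0))) * (X' - algebraMap k Ω (algebraMap k₁ k (e 1))) *
        algebraMap k Ω (algebraMap k₁ k ((e 2 - e 0) * (e 2 - e 1))))
      rw [hφ, hφ, hφ, he0, he1, he2, map_mul, map_sub, map_sub, map_zero, g1, g2, hX']
      field_simp
      ring
    · refine key b' c' _ fb fc _ ?_ (hi 0 3 (by decide) (by decide))
      show _ = _ * ((X' - algebraMap k Ω (algebraMap k₁ k (e 0))) * (X' - algebraMap k Ω (algebraMap k₁ k (e 3))) *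
        algebraMap k Ω (algebraMap k₁ k ((e 2 - e 0) * (e 2 - e 3))))
      rw [hφ, hφ, hφ, he0, he2, he3, map_mul, map_sub, map_sub, map_zero, g2, g3, hX']
      field_simp
      ring
  · right; right; right
    constructor
    · refine key c' a' _ fc fa _ ?_ (hi 0 1 (by decide) (by decide))
      show _ = _ * ((X' - algebraMap k Ω (algebraMap k₁ k (e 0))) * (X' - algebraMap k Ω (algebraMap k₁ k (e 1))) *
        algebraMap k Ω (algebraMap k₁ k ((e 3 - e 0) * (e 3 - e 1))))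
      rw [hφ, hφ, hφ, he0, he1, he3, map_mul, map_sub, map_sub, map_zero, g1, g3, hX']
      field_simp
      ring
    · refine key c' b' _ fc fb _ ?_ (hi 0 2 (by decide) (by decide))
      show _ = _ * ((X' - algebraMap k Ω (algebraMap k₁ k (e 0))) * (X' - algebraMap k Ω (algebraMap k₁ k (e 2))) *
        algebraMap k Ω (algebraMap k₁ k ((e 3 - e 0) * (e 3 - e 2))))
      rw [hφ, hφ, hφ, he0, he2, he3, map_mul, map_sub, map_sub, map_zero, g2, g3, hX']
      field_simp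
      ring

end Pool.Agent.Zk95.HD
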