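import Mathlib
import Pool.Agent.Zk12.HD.Stm4
import Pool.Agent.Zk17.HT.Odd

/-!
# Project HD: all polynomials which split
-/

set_option autoImplicit false
set_option linter.all false

open Polynomial

namespace Pool.Agent.Zk95.HD

open Pool.Agent.TH954 Pool.Agent.Zk12.FG Pool.Agent.Zk12.HT Pool.Agent.Zk12.GT Pool.Agent.Zk12.HD

/-- the leading coefficient goes into `d` -/
theorem core_lead {k : Type} [Field k] (f : k[X]) (c d : k) (hc : c ≠ 0)
    (h : Core f (c⁻¹ * d)) : Core (C c * f) d := by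
  intro F Ω B _ _ _ _ _ _ _ _ _ _ x y hx halg hxy s
  have hcF : algebraMap k F c ≠ 0 := (_root_.map_ne_zero _).2 hc
  have h1 : algebraMap k F (c⁻¹ * d) * y ^ 2 = aeval x f := by
    rw [map_mul, map_inv₀, mul_assoc, hxy, map_mul, aeval_C, ← mul_assoc, inv_mul_cancel₀ hcF,
      one_mul]
  obtain ⟨O, h2, h3, h4⟩ := h F Ω B x y hx halg h1 s
  refine ⟨O, ?_, h3, h4⟩
  intro h5
  apply h2
  have h6 : (aeval x f)⁻¹ = algebraMap k F c * (aeval x (C c * f))⁻¹ := by
    rw [map_mul, aeval_C, mul_inv, ← mul_assoc, mul_inv_cancel₀ hcF, one_mul]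
  rw [h6]
  exact mul_mem (h3.2.1 c) h5

theorem core_splits (h : S_HDC) {k₁ k : Type} [Field k₁] [CharZero k₁]
    (hfg : (⊤ : IntermediateField ℚ k₁).FG) [Field k] [Algebra k₁ k] (t : k)
    (ht : Transcendental k₁ t) (htop : IntermediateField.adjoin k₁ {t} = ⊤)
    (D : k₁[X]) (hD : Irreducible D) (hodd : Odd D.natDegree) (g : k₁[X]) (hg : g.Separable)
    (hs : g.Splits) (hev : Even g.natDegree) (h4 : 4 ≤ g.natDegree) :
    Core (g.map (algebraMap k₁ k)) (aeval t D) := by
  classical
  have hg0 : g ≠ 0 := hg.ne_zero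
  have hc : g.leadingCoeff ≠ 0 := leadingCoeff_ne_zero.2 hg0
  obtain ⟨S, hS⟩ : ∃ S, S = g.roots.toFinset := ⟨_, rfl⟩
  have hnd : g.roots.Nodup := nodup_roots hg
  have hcard : S.card = g.natDegree := by
    rw [hS, Multiset.toFinset_card_of_nodup hnd, hs.natDegree_eq_card_roots]
  obtain ⟨φ⟩ : Nonempty (S ≃ Fin g.natDegree) := ⟨S.equivFinOfCardEq hcard⟩
  obtain ⟨e, he⟩ : ∃ e : Fin g.natDegree → k₁, ∀ i, e i = (φ.symm i : k₁) := ⟨_, fun _ => rfl⟩
  have heinj : Function.Injective e := by
    intro i j hij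
    rw [he, he] at hij
    exact φ.symm.injective (Subtype.ext hij)
  have hprod : g = C g.leadingCoeff * ∏ i, (X - C (e i)) := by
    conv_lhs => rw [hs.eq_prod_roots]
    congr 1
    have h1 : ∏ i, (X - C (e i)) = ∏ r : S, (X - C (r : k₁)) := by
      refine Fintype.prod_equiv φ.symm _ _ fun i => ?_
      rw [he]
    rw [h1, Finset.prod_coe_sort S (fun r => X - C r), hS, Finset.prod_eq_multiset_prod,
      Multiset.toFinset_val, hnd.dedup]
  have hc' : algebraMap k₁ k g.leadingCoeff ≠ 0 := (_root_.map_ne_zero _).2 hc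
  rw [hprod, Polynomial.map_mul, map_C, Polynomial.map_prod]
  simp only [Polynomial.map_sub, map_X, map_C]
  refine core_lead _ _ _ hc' ?_
  have hD' : Irreducible (C g.leadingCoeff⁻¹ * D) := by
    rw [irreducible_isUnit_mul (isUnit_C.2 (isUnit_iff_ne_zero.2 (inv_ne_zero hc)))]
    exact hD
  have hdeg : (C g.leadingCoeff⁻¹ * D).natDegree = D.natDegree :=
    natDegree_C_mul (inv_ne_zero hc)
  have h2 := h k₁ k hfg t ht htop (C g.leadingCoeff⁻¹ * D) hD' (by rw [hdeg]; exact hodd)
    g.natDegree hev h4 e heinj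
  rw [map_mul, aeval_C, map_inv₀] at h2
  exact h2

/-- if `f` splits then `g` splits -/
theorem splits_odd {k : Type} [Field k] {f g : k[X]} {a : k} (hf : f.Separable) (hs : f.Splits)
    (hfa : f.eval a ≠ 0) (hgd : g.natDegree = f.natDegree + 1) (hg0 : g.eval 0 = 0)
    (hgz : ∀ z : k, z ≠ 0 → (g.eval z = 0 ↔ f.eval (a + z⁻¹) = 0)) : g.Splits := by
  classical
  have hgne : g ≠ 0 := by
    rintro rfl
    rw [natDegree_zero] at hgd
    omega
  rw [splits_iff_card_roots]
  apply le_antisymm (card_roots' g)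
  obtain ⟨T, hT⟩ : ∃ T, T = insert (0 : k) (f.roots.toFinset.image fun r => (r - a)⁻¹) :=
    ⟨_, rfl⟩
  have hfne : f ≠ 0 := hf.ne_zero
  have hra : ∀ r ∈ f.roots.toFinset, r - a ≠ 0 := by
    intro r hr h
    rw [Multiset.mem_toFinset, mem_roots hfne] at hr
    rw [sub_eq_zero.1 h] at hr
    exact hfa hr
  have hcard : T.card = g.natDegree := by
    rw [hT, Finset.card_insert_of_notMem, Finset.card_image_of_injOn,
      Multiset.toFinset_card_of_nodup (nodup_roots hf), ← hs.natDegree_eq_card_roots, hgd]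
    · intro r _ r' _ h
      have h1 : r - a = r' - a := inv_injective h
      linear_combination h1
    · intro h
      rw [Finset.mem_image] at h
      obtain ⟨r, hr, h⟩ := h
      exact inv_ne_zero (hra r hr) h
  have hsub : T ⊆ g.roots.toFinset := by
    intro z hz
    rw [Multiset.mem_toFinset, mem_roots hgne, IsRoot.def]
    rw [hT, Finset.mem_insert, Finset.mem_image] at hz
    rcases hz with rfl | ⟨r, hr, rfl⟩
    · exact hg0
    · rw [hgz _ (inv_ne_zero (hra r hr)), inv_inv, add_sub_cancel]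
      rw [Multiset.mem_toFinset, mem_roots hfne] at hr
      exact hr
  calc g.natDegree = T.card := hcard.symm
    _ ≤ g.roots.toFinset.card := Finset.card_le_card hsub
    _ ≤ Multiset.card g.roots := Multiset.toFinset_card_le _

/-- as `bsc_all`, for polynomials which split -/
theorem bsc_all_splits {k₁ k : Type} [Field k₁] [CharZero k₁] [Field k] [Algebra k₁ k]
    (d : k) (hcore : ∀ g : k₁[X], g.Separable → g.Splits → Even g.natDegree → 4 ≤ g.natDegree →
      Core (g.map (algebraMap k₁ k)) d) (f : k₁[X]) (hf : f.Separable) (hs : f.Splits)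
    (h3 : 3 ≤ f.natDegree) : BSC (f.map (algebraMap k₁ k)) d := by
  rcases Nat.even_or_odd f.natDegree with hev | hodd
  · refine bsc_of_core ?_ (hcore f hf hs hev ?_)
    · rw [natDegree_map]; omega
    · rcases hev with ⟨m, hm⟩; omega
  obtain ⟨a, g, hfa, hg, hgd, hg0, hgz, hgF⟩ := Pool.Agent.Zk17.HT.odd k₁ f hf hodd h3
  have hc := hcore g hg (splits_odd hf hs hfa hgd hg0 hgz) (by rw [hgd]; exact hodd.add_one)
    (by omega)
  intro F Ω B _ _ _ _ _ _ _ _ _ _ x y hx hF hxy s
  letI : Algebra k₁ F := ((algebraMap k F).comp (algebraMap k₁ k)).toAlgebra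
  haveI : IsScalarTower k₁ k F := IsScalarTower.of_algebraMap_eq fun _ => rfl
  have hxa : x ≠ algebraMap k F (algebraMap k₁ k a) := by
    rintro rfl
    exact hx (isAlgebraic_algebraMap _)
  have hxa' : x - algebraMap k F (algebraMap k₁ k a) ≠ 0 := sub_ne_zero.2 hxa
  set x' : F := (x - algebraMap k F (algebraMap k₁ k a))⁻¹ with hx'
  have hx'0 : x' ≠ 0 := inv_ne_zero hxa'
  have hxx : x = x'⁻¹ + algebraMap k F (algebraMap k₁ k a) := by
    rw [hx', inv_inv, sub_add_cancel]
  have hadj : IntermediateField.adjoin k {x'} = IntermediateField.adjoin k {x} := by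
    apply le_antisymm
    · rw [IntermediateField.adjoin_le_iff]
      rintro _ rfl
      exact inv_mem (sub_mem (IntermediateField.mem_adjoin_simple_self k x)
        (IntermediateField.algebraMap_mem _ _))
    · rw [IntermediateField.adjoin_le_iff]
      rintro _ rfl
      have h1 : x'⁻¹ + algebraMap k F (algebraMap k₁ k a) ∈ IntermediateField.adjoin k {x'} :=
        add_mem (inv_mem (IntermediateField.mem_adjoin_simple_self k x'))
          (IntermediateField.algebraMap_mem _ _)
      rw [← hxx] at h1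
      exact h1
  have hx't : Transcendental k x' := by
    intro h
    apply hx
    rw [hxx]
    exact h.inv.add (isAlgebraic_algebraMap _)
  have hF' : Algebra.IsAlgebraic (IntermediateField.adjoin k {x'}) F := hadj ▸ hF
  obtain ⟨m, hm⟩ : Even (f.natDegree + 1) := hodd.add_one
  have hxy' : algebraMap k F d * (y * x' ^ m) ^ 2 = aeval x' (g.map (algebraMap k₁ k)) := by
    rw [aeval_map_algebraMap, hx']
    have h1 := hgF F x (by
      rw [IsScalarTower.algebraMap_apply k₁ k F]
      exact hxa)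
    rw [IsScalarTower.algebraMap_apply k₁ k F] at h1
    rw [h1, mul_pow, ← mul_assoc, hxy, aeval_map_algebraMap, ← pow_mul, hm]
    congr 2
    ring
  obtain ⟨O, h1, h2, h4⟩ := hc F Ω B x' (y * x' ^ m) hx't hF' hxy' s
  refine ⟨O, h2, h4, ?_⟩
  obtain ⟨hxO, e, he, hxe⟩ := root_at O h2.2.1 h2.2.2.1 x' (g.map (algebraMap k₁ k))
    (by rw [natDegree_map]; omega) h1
  have hval : ∀ c : k, c ≠ 0 → O.valuation (algebraMap k F c) = 1 := by
    intro c hc
    apply le_antisymm ((O.valuation_le_one_iff _).2 (h2.2.1 c))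
    have h1 := (O.valuation_le_one_iff _).2 (h2.2.1 c⁻¹)
    rw [map_inv₀, map_inv₀] at h1
    have h2 : O.valuation (algebraMap k F c) ≠ 0 :=
      (Valuation.ne_zero_iff _).2 ((_root_.map_ne_zero _).2 hc)
    exact (inv_le_one₀ (zero_lt_iff.2 h2)).1 h1
  by_cases he0 : e = 0
  · right
    refine ⟨by rw [natDegree_map]; exact hodd, ?_⟩
    rw [he0, map_zero, sub_zero, mem_nonunits_iff_lt] at hxe
    rw [mem_nonunits_iff_lt]
    -- `x = 1 / x' + a` has a pole
    have h5 : 1 < O.valuation x'⁻¹ := by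
      rw [map_inv₀]
      exact (one_lt_inv₀ (zero_lt_iff.2 ((Valuation.ne_zero_iff _).2 hx'0))).2 hxe
    have h6 : O.valuation (algebraMap k F (algebraMap k₁ k a)) < O.valuation x'⁻¹ :=
      lt_of_le_of_lt ((O.valuation_le_one_iff _).2 (h2.2.1 _)) h5
    have h7 : O.valuation x = O.valuation x'⁻¹ := by
      rw [hxx]
      exact Valuation.map_add_eq_of_lt_left _ h6
    rw [map_inv₀, h7]
    exact inv_lt_one_of_one_lt₀ h5
  · left
    -- the root of `f`
    have hgk : ∀ z : k, z ≠ 0 → (g.map (algebraMap k₁ k)).eval z = 0 →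
        (f.map (algebraMap k₁ k)).eval (algebraMap k₁ k a + z⁻¹) = 0 := by
      intro z hz h
      have hza : algebraMap k₁ k a + z⁻¹ ≠ algebraMap k₁ k a := by
        intro h0
        have h9 : z⁻¹ = 0 := by linear_combination h0
        exact inv_ne_zero hz h9
      have h8 := hgF k (algebraMap k₁ k a + z⁻¹) hza
      rw [add_sub_cancel_left, inv_inv] at h8
      rw [eval_map, ← aeval_def] at h ⊢
      rw [h] at h8
      rcases mul_eq_zero.1 h8.symm with h9 | h9
      · exact h9
      · exact absurd h9 (pow_ne_zero _ hz)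
    refine ⟨algebraMap k₁ k a + e⁻¹, hgk e he0 he, ?_⟩
    rw [mem_nonunits_iff_lt] at hxe ⊢
    have h5 : O.valuation x' = 1 := by
      have h6 : x' = algebraMap k F e + (x' - algebraMap k F e) := by ring
      rw [h6, Valuation.map_add_eq_of_lt_left _ (by rw [hval e he0]; exact hxe), hval e he0]
    have h6 : x - algebraMap k F (algebraMap k₁ k a + e⁻¹) =
        -(x' - algebraMap k F e) * (x'⁻¹ * algebraMap k F e⁻¹) := by
      have he' : algebraMap k F e ≠ 0 := (_root_.map_ne_zero _).2 he0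
      rw [hxx, map_add, map_inv₀]
      field_simp
      ring
    rw [h6, map_mul, Valuation.map_neg, map_mul, map_inv₀, h5, hval _ (inv_ne_zero he0), inv_one,
      mul_one, mul_one]
    exact hxe

/-- part ALL -/
theorem allD (h : S_HDC) : S_HDS := by
  intro k₁ k _ _ hfg _ _ t ht htop D hD hodd f hf hs h3
  exact bsc_all_splits _ (fun g hg hgs hev h4 =>
    core_splits h hfg t ht htop D hD hodd g hg hgs hev h4) f hf hs h3

end Pool.Agent.Zk95.HD
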