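import Mathlib
import Pool.Agent.Zk12.HD.Stm5

/-!
# Project HDX: descent of the birational section conjecture along a normal algebraic extension
-/

set_option autoImplicit false
set_option linter.all false

open Polynomial IntermediateField

namespace Pool.Agent.Zk95.HD

open Pool.Agent.TH954 Pool.Agent.Zk12.FG Pool.Agent.Zk12.HT Pool.Agent.Zk12.HD

section val

variable {Ω : Type} [Field Ω]

/-- valuation rings are integrally closed -/
theorem mem_of_monic (W : ValuationSubring Ω) {p : Polynomial Ω} (hp : p.Monic)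
    (hc : ∀ i, p.coeff i ∈ W) {z : Ω} (hz : p.eval z = 0) : z ∈ W := by
  have h1 : p ∈ Polynomial.lifts (algebraMap W Ω) :=
    (lifts_iff_coeff_lifts p).2 fun i => ⟨⟨p.coeff i, hc i⟩, rfl⟩
  obtain ⟨q, hq, -, hqm⟩ := lifts_and_natDegree_eq_and_monic h1 hp
  have h2 : IsIntegral W z := ⟨q, hqm, by rw [← eval_map, hq]; exact hz⟩
  obtain ⟨y, hy⟩ := IsIntegrallyClosed.isIntegral_iff.1 h2
  rw [← hy]
  exact y.2

theorem alg_mem (W : ValuationSubring Ω) {k : Type} [Field k] [Algebra k Ω]
    (hk : ∀ c : k, algebraMap k Ω c ∈ W) {z : Ω} (hz : IsAlgebraic k z) : z ∈ W := by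
  have hi := hz.isIntegral
  refine mem_of_monic W ((minpoly.monic hi).map (algebraMap k Ω)) (fun i => ?_) (z := z) ?_
  · rw [coeff_map]
    exact hk _
  · rw [eval_map, ← aeval_def, minpoly.aeval]

theorem val_lt_iff {K : Type} [Field K] (O : ValuationSubring K) (z : K) :
    O.valuation z < 1 ↔ z = 0 ∨ z⁻¹ ∉ O := by
  by_cases hz : z = 0
  · simp [hz]
  · rw [← O.valuation_le_one_iff, map_inv₀, not_le, or_iff_right hz]
    have h0 : O.valuation z ≠ 0 := (Valuation.ne_zero_iff _).2 hz
    rw [one_lt_inv₀ (zero_lt_iff.2 h0)]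

theorem val_comap {K L : Type} [Field K] [Field L] (f : K →+* L) (W : ValuationSubring L) (z : K) :
    (W.comap f).valuation z < 1 ↔ W.valuation (f z) < 1 := by
  rw [val_lt_iff, val_lt_iff, ValuationSubring.mem_comap, map_inv₀, map_eq_zero]

theorem val_unit (W : ValuationSubring Ω) {k : Type} [Field k] [Algebra k Ω]
    (hk : ∀ c : k, algebraMap k Ω c ∈ W) {c : k} (hc : W.valuation (algebraMap k Ω c) < 1) :
    c = 0 := by
  rcases (val_lt_iff W _).1 hc with h | h
  · exact (map_eq_zero _).1 h
  · exact absurd (by rw [← map_inv₀]; exact hk _) h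

/-- the residue field is algebraic over the residue field below -/
theorem res_alg (W : ValuationSubring Ω) {k F B : Type} [Field k] [Field F] [Field B] [Algebra k F]
    [Algebra F Ω] [Algebra k Ω] [IsScalarTower k F Ω] [Algebra.IsAlgebraic F Ω] [Algebra k B]
    [IsAlgClosed B] (j : B →ₐ[k] Ω)
    (hk : ∀ c : k, algebraMap k Ω c ∈ W)
    (hres : ∀ a : F, algebraMap F Ω a ∈ W →
      ∃ c : k, W.valuation (algebraMap F Ω a - algebraMap k Ω c) < 1)
    (z : Ω) (hz : z ∈ W) : ∃ b : B, W.valuation (z - j b) < 1 := by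
  classical
  have hzv : W.valuation z ≤ 1 := (W.valuation_le_one_iff _).2 hz
  have hza : IsAlgebraic F z := Algebra.IsAlgebraic.isAlgebraic z
  obtain ⟨p, hp0, hpz⟩ := hza
  -- the largest coefficient
  obtain ⟨m, hm, hmax⟩ := Finset.exists_max_image p.support
    (fun i => W.valuation (algebraMap F Ω (p.coeff i))) (by
      rw [Polynomial.support_nonempty]; exact hp0)
  have hm0 : p.coeff m ≠ 0 := mem_support_iff.1 hm
  have hm1 : W.valuation (algebraMap F Ω (p.coeff m)) ≠ 0 :=
    (Valuation.ne_zero_iff _).2 ((_root_.map_ne_zero _).2 hm0)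
  have hcW : ∀ i, algebraMap F Ω (p.coeff i / p.coeff m) ∈ W := by
    intro i
    rw [← W.valuation_le_one_iff, map_div₀, map_div₀, div_le_one₀ (zero_lt_iff.2 hm1)]
    by_cases hi : i ∈ p.support
    · exact hmax i hi
    · rw [notMem_support_iff.1 hi, map_zero, map_zero]
      exact zero_le'
  choose c hc using fun i => hres _ (hcW i)
  set q : k[X] := ∑ i ∈ Finset.range (p.natDegree + 1), C (c i) * X ^ i with hq
  have hqm : q.coeff m = c m := by
    rw [hq, finset_sum_coeff]
    simp only [coeff_C_mul, coeff_X_pow, mul_ite, mul_one, mul_zero]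
    rw [Finset.sum_ite_eq]
    rw [if_pos]
    rw [Finset.mem_range]
    exact Nat.lt_succ_of_le (le_natDegree_of_ne_zero hm0)
  have hcm : c m ≠ 0 := by
    intro h
    have h1 := hc m
    rw [h, map_zero, sub_zero, div_self hm0, map_one, map_one] at h1
    exact lt_irrefl _ h1
  have hq0 : q ≠ 0 := by
    intro h
    rw [h, coeff_zero] at hqm
    exact hcm hqm.symm
  have hqz : W.valuation (aeval z q) < 1 := by
    have h1 : aeval z q = - ∑ i ∈ Finset.range (p.natDegree + 1),
        (algebraMap F Ω (p.coeff i / p.coeff m) - algebraMap k Ω (c i)) * z ^ i := by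
      have h2 : ∑ i ∈ Finset.range (p.natDegree + 1),
          algebraMap F Ω (p.coeff i / p.coeff m) * z ^ i = 0 := by
        have h3 : ∑ i ∈ Finset.range (p.natDegree + 1),
            algebraMap F Ω (p.coeff i / p.coeff m) * z ^ i =
            (algebraMap F Ω (p.coeff m))⁻¹ * aeval z p := by
          rw [aeval_eq_sum_range, Finset.mul_sum]
          refine Finset.sum_congr rfl fun i _ => ?_
          rw [Algebra.smul_def, map_div₀]
          ring
        rw [h3, hpz, mul_zero]
      simp only [sub_mul, Finset.sum_sub_distrib]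
      rw [h2, zero_sub, neg_neg, hq, map_sum]
      refine Finset.sum_congr rfl fun i _ => ?_
      rw [map_mul, aeval_C, map_pow, aeval_X]
    rw [h1, Valuation.map_neg]
    refine Valuation.map_sum_lt _ one_ne_zero fun i _ => ?_
    rw [map_mul, map_pow]
    calc W.valuation (algebraMap F Ω (p.coeff i / p.coeff m) - algebraMap k Ω (c i)) *
          W.valuation z ^ i ≤
          W.valuation (algebraMap F Ω (p.coeff i / p.coeff m) - algebraMap k Ω (c i)) * 1 :=
            mul_le_mul_right (pow_le_one' hzv i) _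
      _ < 1 := by rw [mul_one]; exact hc i
  -- the factors over `B`
  have hsp := (IsAlgClosed.splits (q.map (algebraMap k B))).eq_prod_roots
  have hval : aeval z q = algebraMap k Ω q.leadingCoeff *
      ((q.map (algebraMap k B)).roots.map fun b => z - j b).prod := by
    have h1 : aeval z q = eval₂ (j : B →+* Ω) z (q.map (algebraMap k B)) := by
      rw [eval₂_map, aeval_def]
      congr 1
      ext c
      exact (j.commutes c).symm
    rw [h1, hsp, eval₂_mul, eval₂_C, leadingCoeff_map]
    congr 1
    · exact j.commutes _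
    · rw [eval₂_multiset_prod, Multiset.map_map, roots_C_mul, roots_multiset_prod_X_sub_C]
      · congr 1
        refine Multiset.map_congr rfl fun b _ => ?_
        simp
      · rw [Ne, map_eq_zero]
        exact leadingCoeff_ne_zero.2 hq0
  by_contra hcon
  push Not at hcon
  have hprod : ∀ M : Multiset B, 1 ≤ W.valuation ((M.map fun b => z - j b).prod) := by
    intro M
    induction M using Multiset.induction_on with
    | empty => simp
    | cons b M ih =>
      rw [Multiset.map_cons, Multiset.prod_cons, map_mul]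
      exact one_le_mul (hcon b) ih
  have hlead : W.valuation (algebraMap k Ω q.leadingCoeff) = 1 := by
    apply le_antisymm ((W.valuation_le_one_iff _).2 (hk _))
    by_contra h
    exact leadingCoeff_ne_zero.2 hq0 (val_unit W hk (not_le.1 h))
  rw [hval, map_mul, hlead, one_mul] at hqz
  exact absurd (hprod _) (not_le.2 hqz)

/-- at most one valuation ring above a valuation ring of the fixed field is preserved -/
theorem le_of_stable {F : Type} [Field F] [Algebra F Ω] [Algebra.IsAlgebraic F Ω] {Γ : Type}
    [Group Γ] (ρ : Γ →* (Ω ≃ₐ[F] Ω))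
    (hfix : ∀ z : Ω, (∀ g, ρ g z = z) → ∃ y : F, algebraMap F Ω y = z)
    (W₁ W₂ : ValuationSubring Ω) (h₁ : ∀ g x, ρ g x ∈ W₁ ↔ x ∈ W₁)
    (hcom : ∀ y : F, algebraMap F Ω y ∈ W₁ → algebraMap F Ω y ∈ W₂) : W₁ ≤ W₂ := by
  classical
  intro z hz
  set S : Set Ω := {w | ∃ g, ρ g z = w} with hS
  have hfin : S.Finite := by
    have hza : IsAlgebraic F z := Algebra.IsAlgebraic.isAlgebraic z
    have h0 : minpoly F z ≠ 0 := minpoly.ne_zero hza.isIntegral
    refine Set.Finite.subset ((minpoly F z).rootSet_finite Ω) ?_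
    rintro w ⟨g, rfl⟩
    rw [mem_rootSet]
    refine ⟨h0, ?_⟩
    rw [aeval_algHom_apply (ρ g), minpoly.aeval, map_zero]
  set p : Polynomial Ω := ∏ w ∈ hfin.toFinset, (X - C w) with hp
  have hmon : p.Monic := monic_prod_of_monic _ _ fun w _ => monic_X_sub_C w
  have hpz : p.eval z = 0 := by
    rw [hp, eval_prod]
    refine Finset.prod_eq_zero (i := z) (hfin.mem_toFinset.2 ⟨1, by rw [map_one]; rfl⟩) ?_
    simp
  have hmap : ∀ g, p.map (ρ g : Ω →+* Ω) = p := by
    intro g
    rw [hp, Polynomial.map_prod]
    refine Finset.prod_bij (fun w _ => ρ g w) ?_ ?_ ?_ ?_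
    · intro w hw
      obtain ⟨h, rfl⟩ := hfin.mem_toFinset.1 hw
      exact hfin.mem_toFinset.2 ⟨g * h, by rw [map_mul]; rfl⟩
    · intro w _ w' _ h
      exact (ρ g).injective h
    · intro w hw
      obtain ⟨h, rfl⟩ := hfin.mem_toFinset.1 hw
      refine ⟨ρ (g⁻¹ * h) z, hfin.mem_toFinset.2 ⟨_, rfl⟩, ?_⟩
      change (ρ g * ρ (g⁻¹ * h)) z = _
      rw [← map_mul, mul_inv_cancel_left]
    · intro w _
      rw [Polynomial.map_sub, map_X, map_C]
      rfl
  have hcW : ∀ i, p.coeff i ∈ W₁ := by
    have h1 : p ∈ Polynomial.lifts (algebraMap W₁ Ω) := by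
      rw [hp]
      refine Subsemiring.prod_mem _ fun w hw => ?_
      obtain ⟨h, rfl⟩ := hfin.mem_toFinset.1 hw
      have h2 : ρ h z ∈ W₁ := (h₁ h z).2 hz
      have h3 : X - C (ρ h z) = X + C (algebraMap W₁ Ω (-⟨ρ h z, h2⟩)) := by
        rw [map_neg, C_neg, sub_eq_add_neg]
        rfl
      rw [h3]
      exact add_mem (X_mem_lifts _) (C'_mem_lifts ⟨_, rfl⟩)
    intro i
    obtain ⟨y, hy⟩ := (lifts_iff_coeff_lifts p).1 h1 i
    rw [← hy]
    exact y.2
  refine mem_of_monic W₂ hmon (fun i => ?_) hpz
  obtain ⟨y, hy⟩ := hfix (p.coeff i) fun g => by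
    have h1 := congrArg (fun q : Polynomial Ω => q.coeff i) (hmap g)
    simp only [coeff_map] at h1
    exact h1
  rw [← hy]
  apply hcom
  rw [hy]
  exact hcW i

end val

section main

variable {k F Ω B : Type} [Field k] [Field F] [Field Ω] [Field B]
  [Algebra k F] [Algebra F Ω] [Algebra k Ω] [Algebra k B]
  [IsScalarTower k F Ω] [IsAlgClosure F Ω] [IsAlgClosure k B]

variable (E : Type) [Field E] [Algebra k E] [Algebra E B] [IsScalarTower k E B]

/-- the fixed field of `Gal(B/E)` -/
def FE (s : GalSection k F Ω B) : IntermediateField F Ω where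
  carrier := {y | ∀ g : B ≃ₐ[E] B, s.s (g.restrictScalars k) y = y}
  mul_mem' ha hb g := by rw [map_mul, ha g, hb g]
  add_mem' ha hb g := by rw [map_add, ha g, hb g]
  algebraMap_mem' c g := (s.s (g.restrictScalars k)).commutes c
  inv_mem' a ha g := by rw [map_inv₀, ha g]

theorem mem_FE {s : GalSection k F Ω B} {y : Ω} :
    y ∈ FE E s ↔ ∀ g : B ≃ₐ[E] B, s.s (g.restrictScalars k) y = y := Iff.rfl

/-- restriction of scalars -/
def rsH : (B ≃ₐ[E] B) →* (B ≃ₐ[k] B) where
  toFun := fun g => g.restrictScalars k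
  map_one' := rfl
  map_mul' := fun _ _ => rfl

theorem rsH_cont : Continuous (rsH (k := k) (B := B) E) := by
  haveI : Algebra.IsAlgebraic k B := IsAlgClosure.isAlgebraic
  haveI : Algebra.IsAlgebraic E B := Algebra.IsAlgebraic.tower_top (K := k) E
  refine continuous_of_continuousAt_one _ ?_
  rw [ContinuousAt, map_one, Filter.tendsto_def]
  intro V hV
  rw [krullTopology_mem_nhds_one_iff] at hV
  obtain ⟨K, hK, hKV⟩ := hV
  have hfg : K.FG := IntermediateField.essFiniteType_iff.1 inferInstance
  obtain ⟨T, hT⟩ := hfg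
  rw [krullTopology_mem_nhds_one_iff]
  refine ⟨IntermediateField.adjoin E (T : Set B), ?_, ?_⟩
  · exact IntermediateField.finiteDimensional_adjoin fun z _ =>
      (Algebra.IsAlgebraic.isAlgebraic (R := E) z).isIntegral
  · intro g hg
    apply hKV
    refine (IntermediateField.mem_fixingSubgroup_iff _ _).2 ?_
    rw [← hT]
    intro z hz
    have h3 : IntermediateField.adjoin k (T : Set B) ≤ IntermediateField.fixedField
        (Subgroup.zpowers (rsH (k := k) (B := B) E g)) := by
      rw [IntermediateField.adjoin_le_iff]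
      intro y hy
      rw [SetLike.mem_coe, IntermediateField.mem_fixedField_iff]
      intro f hf
      have h4 : rsH (k := k) (B := B) E g y = y :=
        (IntermediateField.mem_fixingSubgroup_iff _ _).1 hg y
          (IntermediateField.subset_adjoin _ _ hy)
      have h5 : rsH (k := k) (B := B) E g ∈ MulAction.stabilizer (B ≃ₐ[k] B) y := h4
      exact (Subgroup.zpowers_le.2 h5) hf
    exact (IntermediateField.mem_fixedField_iff _ _).1 (h3 hz) _ (Subgroup.mem_zpowers _)

/-- the homomorphism -/
noncomputable def sEh (s : GalSection k F Ω B) : (B ≃ₐ[E] B) →* (Ω ≃ₐ[FE E s] Ω) where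
  toFun := fun g => AlgEquiv.ofRingEquiv (f := (s.s (g.restrictScalars k) : Ω ≃+* Ω))
    (fun z => z.2 g)
  map_one' := by
    ext z
    change s.s 1 z = z
    rw [map_one]
    rfl
  map_mul' := fun g h => by
    ext z
    change s.s ((g.restrictScalars k) * (h.restrictScalars k)) z =
      s.s (g.restrictScalars k) (s.s (h.restrictScalars k) z)
    rw [map_mul]
    rfl

theorem sEh_apply (s : GalSection k F Ω B) (g : B ≃ₐ[E] B) (z : Ω) :
    sEh E s g z = s.s (g.restrictScalars k) z := rfl

theorem sEh_cont (s : GalSection k F Ω B) : Continuous (sEh E s) := by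
  have halg : Algebra.IsAlgebraic F Ω := IsAlgClosure.isAlgebraic
  have hch : Algebra.IsAlgebraic (FE E s) Ω := Algebra.IsAlgebraic.tower_top (K := F) (FE E s)
  refine continuous_of_continuousAt_one _ ?_
  rw [ContinuousAt, map_one, Filter.tendsto_def]
  intro V hV
  rw [krullTopology_mem_nhds_one_iff] at hV
  obtain ⟨K, hK, hKV⟩ := hV
  have hfg : K.FG := IntermediateField.essFiniteType_iff.1 inferInstance
  obtain ⟨T, hT⟩ := hfg
  have h1 : {f : Ω ≃ₐ[F] Ω | ∀ z ∈ T, f z = z} ∈ nhds (1 : Ω ≃ₐ[F] Ω) := by
    rw [krullTopology_mem_nhds_one_iff]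
    refine ⟨IntermediateField.adjoin F (T : Set Ω), ?_, ?_⟩
    · exact IntermediateField.finiteDimensional_adjoin fun z _ => (halg.isAlgebraic z).isIntegral
    · intro f hf z hz
      exact (mem_fixingSubgroup_iff _ _).1 hf z (IntermediateField.subset_adjoin _ _ hz)
  have h2 := (s.cont.comp (rsH_cont (k := k) (B := B) E)).tendsto 1
  have h2' : (s.s ∘ rsH (k := k) (B := B) E) 1 = 1 := by
    change s.s (rsH (k := k) (B := B) E 1) = 1
    rw [map_one, map_one]
  rw [h2'] at h2
  refine Filter.mem_of_superset (h2 h1) ?_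
  intro g hg
  apply hKV
  refine (IntermediateField.mem_fixingSubgroup_iff _ _).2 ?_
  rw [← hT]
  intro z hz
  have h3 : IntermediateField.adjoin (FE E s) (T : Set Ω) ≤ IntermediateField.fixedField
      (Subgroup.zpowers (sEh E s g)) := by
    rw [IntermediateField.adjoin_le_iff]
    intro y hy
    rw [SetLike.mem_coe, IntermediateField.mem_fixedField_iff]
    intro f hf
    have h4 : sEh E s g y = y := hg y hy
    have h5 : sEh E s g ∈ MulAction.stabilizer (Ω ≃ₐ[FE E s] Ω) y := h4
    exact (Subgroup.zpowers_le.2 h5) hf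
  exact (IntermediateField.mem_fixedField_iff _ _).1 (h3 hz) _ (Subgroup.mem_zpowers _)

/-- the section over `E` -/
noncomputable def sE (s : GalSection k F Ω B) [Algebra E Ω]
    (h : ∀ e : E, algebraMap E Ω e = s.j (algebraMap E B e)) : GalSection E (FE E s) Ω B where
  j := { (s.j : B →+* Ω) with commutes' := fun e => (h e).symm }
  s := sEh E s
  cont := sEh_cont E s
  sec := fun g x => s.sec (g.restrictScalars k) x

theorem exists_conj [Normal k E] (g : B ≃ₐ[k] B) (h : B ≃ₐ[E] B) :
    ∃ h' : B ≃ₐ[E] B, g * h.restrictScalars k = h'.restrictScalars k * g := by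
  have hc : ∀ e : E, (g * h.restrictScalars k * g⁻¹) (algebraMap E B e) = algebraMap E B e := by
    intro e
    change g (h (g⁻¹ (algebraMap E B e))) = _
    rw [← AlgEquiv.restrictNormal_commutes g⁻¹ E e, h.commutes,
      AlgEquiv.restrictNormal_commutes g⁻¹ E e]
    exact g.apply_symm_apply _
  refine ⟨AlgEquiv.ofRingEquiv (f := ((g * h.restrictScalars k * g⁻¹ : B ≃ₐ[k] B) : B ≃+* B)) hc,
    ?_⟩
  ext z
  change g (h z) = g (h (g⁻¹ (g z)))
  congr 2
  exact (g.symm_apply_apply z).symm

end main

/-- elements fixed by the Galois group -/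
theorem fixed_mem {k B : Type} [Field k] [CharZero k] [Field B] [Algebra k B] [IsAlgClosure k B]
    (b : B) (h : ∀ g : B ≃ₐ[k] B, g b = b) : ∃ c : k, algebraMap k B c = b := by
  haveI : Algebra.IsAlgebraic k B := IsAlgClosure.isAlgebraic
  haveI : Normal k B := IsAlgClosure.normal k B
  haveI : IsGalois k B := {}
  have h1 := (InfiniteGalois.mem_bot_iff_fixed (k := k) (K := B) b).2 h
  exact IntermediateField.mem_bot.1 h1

/-- **part DESC** -/
theorem desc : S_DESC := by
  intro k E _ _ _ _ _ f d hE F Ω B _ _ _ _ _ _ _ _ _ _ x y hx halg hxy s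
  haveI : IsAlgClosed B := IsAlgClosure.isAlgClosed k
  haveI : Algebra.IsAlgebraic k B := IsAlgClosure.isAlgebraic
  haveI : Algebra.IsAlgebraic k E := Normal.toIsAlgebraic
  haveI hclΩ : IsAlgClosed Ω := IsAlgClosure.isAlgClosed F
  haveI halgΩ : Algebra.IsAlgebraic F Ω := IsAlgClosure.isAlgebraic
  haveI : CharZero E := charZero_of_injective_algebraMap (algebraMap k E).injective
  let φ : E →ₐ[k] B := IsAlgClosed.lift
  letI : Algebra E B := φ.toRingHom.toAlgebra
  haveI : IsScalarTower k E B := IsScalarTower.of_algebraMap_eq fun c => (φ.commutes c).symm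
  haveI : IsAlgClosure E B := ⟨inferInstance, Algebra.IsAlgebraic.tower_top (K := k) E⟩
  letI : Algebra E Ω := ((s.j : B →+* Ω).comp (algebraMap E B)).toAlgebra
  have hEΩ : ∀ e : E, algebraMap E Ω e = s.j (algebraMap E B e) := fun _ => rfl
  haveI : IsScalarTower k E Ω := IsScalarTower.of_algebraMap_eq fun c => by
    rw [hEΩ, ← IsScalarTower.algebraMap_apply k E B]
    exact (s.j.commutes c).symm
  -- the field
  have hmem : ∀ e : E, algebraMap E Ω e ∈ FE E s := by
    intro e g
    rw [hEΩ, s.sec]
    congr 1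
    exact g.commutes e
  letI : Algebra E (FE E s) := ((algebraMap E Ω).codRestrict (FE E s) hmem).toAlgebra
  haveI : IsScalarTower E (FE E s) Ω := IsScalarTower.of_algebraMap_eq fun _ => rfl
  haveI : Algebra.IsAlgebraic (FE E s) Ω := Algebra.IsAlgebraic.tower_top (K := F) (FE E s)
  haveI : IsAlgClosure (FE E s) Ω := ⟨hclΩ, inferInstance⟩
  haveI : IsScalarTower k (FE E s) Ω := IsScalarTower.of_algebraMap_eq fun c => by
    rw [IsScalarTower.algebraMap_apply k F Ω, IsScalarTower.algebraMap_apply F (FE E s) Ω,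
      IsScalarTower.algebraMap_apply k F (FE E s)]
  haveI : IsScalarTower k E (FE E s) := IsScalarTower.of_algebraMap_eq fun c => by
    apply (algebraMap (FE E s) Ω).injective
    rw [← IsScalarTower.algebraMap_apply k (FE E s) Ω, ← IsScalarTower.algebraMap_apply E (FE E s) Ω,
      ← IsScalarTower.algebraMap_apply k E Ω]
  have hx' : Transcendental E (algebraMap F (FE E s) x) := by
    intro h
    have h1 : IsAlgebraic k (algebraMap F (FE E s) x) := h.restrictScalars k
    exact hx ((isAlgebraic_algebraMap_iff (algebraMap F (FE E s)).injective).1 h1)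
  have halg' : Algebra.IsAlgebraic (IntermediateField.adjoin E {algebraMap F (FE E s) x})
      (FE E s) := by
    have hR : ∀ z : F, z ∈ IntermediateField.adjoin k {x} →
        algebraMap F (FE E s) z ∈ IntermediateField.adjoin E {algebraMap F (FE E s) x} := by
      intro z hz
      have h1 : IntermediateField.adjoin k {x} ≤
          ((IntermediateField.adjoin E {algebraMap F (FE E s) x}).restrictScalars k).comap
            (IsScalarTower.toAlgHom k F (FE E s)) := by
        rw [IntermediateField.adjoin_le_iff]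
        rintro _ rfl
        exact IntermediateField.mem_adjoin_simple_self E _
      exact h1 hz
    haveI : Algebra.IsAlgebraic (IntermediateField.adjoin k {x}) F := halg
    haveI : Algebra.IsAlgebraic F (FE E s) :=
      Algebra.IsAlgebraic.of_injective (FE E s).val (FE E s).val.injective
    haveI : Algebra.IsAlgebraic (IntermediateField.adjoin k {x}) (FE E s) :=
      Algebra.IsAlgebraic.trans (IntermediateField.adjoin k {x}) F (FE E s)
    let g : IntermediateField.adjoin k {x} →+*
        IntermediateField.adjoin E {algebraMap F (FE E s) x} :=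
      ((algebraMap F (FE E s)).comp (algebraMap (IntermediateField.adjoin k {x}) F)).codRestrict
        (IntermediateField.adjoin E {algebraMap F (FE E s) x}) (fun z => hR z z.2)
    exact Algebra.IsAlgebraic.ringHom_of_comp_eq g (RingHom.id (FE E s)) g.injective
      Function.surjective_id rfl
  have hxy' : algebraMap E (FE E s) (algebraMap k E d) * algebraMap F (FE E s) y ^ 2 =
      aeval (algebraMap F (FE E s) x) (f.map (algebraMap k E)) := by
    rw [aeval_map_algebraMap, ← IsScalarTower.algebraMap_apply k E (FE E s),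
      aeval_algebraMap_apply, ← hxy, map_mul, map_pow, ← IsScalarTower.algebraMap_apply k F (FE E s)]
  obtain ⟨O', hO', huniq, hpt⟩ := hE (FE E s) Ω B _ _ hx' halg' hxy' (sE E s hEΩ)
  obtain ⟨hO1, hO2, hO3, W, hW, hWs⟩ := hO'
  have hEW : ∀ e : E, algebraMap E Ω e ∈ W := by
    intro e
    have h1 := hO2 e
    rw [← hW, ValuationSubring.mem_comap, ← IsScalarTower.algebraMap_apply E (FE E s) Ω] at h1
    exact h1
  have hfix : ∀ z : Ω, (∀ g, sEh E s g z = z) → ∃ y : FE E s, algebraMap (FE E s) Ω y = z :=
    fun z h => ⟨⟨z, h⟩, rfl⟩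
  have hunique : ∀ W₁ W₂ : ValuationSubring Ω, (∀ g x, (sEh E s g x ∈ W₁ ↔ x ∈ W₁)) →
      (∀ g x, (sEh E s g x ∈ W₂ ↔ x ∈ W₂)) →
      W₁.comap (algebraMap (FE E s) Ω) = W₂.comap (algebraMap (FE E s) Ω) → W₁ = W₂ := by
    intro W₁ W₂ h1 h2 h
    apply le_antisymm
    · refine le_of_stable (sEh E s) hfix W₁ W₂ h1 fun y hy => ?_
      have h3 : y ∈ W₁.comap (algebraMap (FE E s) Ω) := hy
      rw [h] at h3
      exact h3
    · refine le_of_stable (sEh E s) hfix W₂ W₁ h2 fun y hy => ?_
      have h3 : y ∈ W₂.comap (algebraMap (FE E s) Ω) := hy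
      rw [← h] at h3
      exact h3
  have htop : ∀ (K : Type) [Field K] [Algebra K Ω] [Algebra.IsAlgebraic K Ω]
      (V : ValuationSubring Ω), V.comap (algebraMap K Ω) = ⊤ → V = ⊤ := by
    intro K _ _ _ V h
    rw [eq_top_iff]
    intro z _
    refine alg_mem V (k := K) (fun c => ?_) (Algebra.IsAlgebraic.isAlgebraic z)
    have h1 : c ∈ V.comap (algebraMap K Ω) := by rw [h]; exact ValuationSubring.mem_top _
    exact h1
  have hWtop : W ≠ ⊤ := by
    intro h
    apply hO1
    rw [← hW, h]
    exact eq_top_iff.2 fun z _ => ValuationSubring.mem_top _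
  -- the action of `g` on constants
  have hgE : ∀ (g : B ≃ₐ[k] B) (e : E),
      s.s g (algebraMap E Ω e) = algebraMap E Ω (g.restrictNormal E e) := by
    intro g e
    rw [hEΩ, hEΩ, s.sec, AlgEquiv.restrictNormal_commutes]
  -- all of `G_k` preserves `W`
  have hstab : ∀ (g : B ≃ₐ[k] B) (z : Ω), s.s g z ∈ W ↔ z ∈ W := by
    intro g z
    have hg : ∀ z : Ω, s.s g (s.s g⁻¹ z) = z := by
      intro z
      change (s.s g * s.s g⁻¹) z = z
      rw [← map_mul, mul_inv_cancel, map_one]
      rfl
    obtain ⟨V, hV⟩ : ∃ V : ValuationSubring Ω, V = W.comap ((s.s g : Ω ≃ₐ[F] Ω) : Ω →+* Ω) :=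
      ⟨_, rfl⟩
    have hVm : ∀ z, z ∈ V ↔ s.s g z ∈ W := by
      intro z
      rw [hV]
      exact Iff.rfl
    have hVval : ∀ z, V.valuation z < 1 ↔ W.valuation (s.s g z) < 1 := by
      intro z
      rw [hV]
      exact val_comap ((s.s g : Ω ≃ₐ[F] Ω) : Ω →+* Ω) W z
    have hVs : ∀ (h : B ≃ₐ[E] B) (z : Ω), (sEh E s h z ∈ V ↔ z ∈ V) := by
      intro h z
      rw [hVm, hVm, sEh_apply]
      obtain ⟨h', hh⟩ := exists_conj E g h
      have h1 : s.s g (s.s (h.restrictScalars k) z) = s.s (h'.restrictScalars k) (s.s g z) := by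
        change (s.s g * s.s (h.restrictScalars k)) z = (s.s (h'.restrictScalars k) * s.s g) z
        rw [← map_mul, ← map_mul, hh]
      rw [h1]
      exact hWs h' (s.s g z)
    have hmemg : ∀ a : FE E s, s.s g a ∈ FE E s := by
      intro a h
      obtain ⟨h', hh⟩ := exists_conj E g⁻¹ h
      have hh' : h.restrictScalars k * g = g * h'.restrictScalars k := by
        have h2 : g⁻¹ * (h.restrictScalars k) * g = h'.restrictScalars k := by
          rw [hh, inv_mul_cancel_right]
        rw [← h2]
        group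
      change (s.s (h.restrictScalars k) * s.s g) (a : Ω) = s.s g a
      rw [← map_mul, hh', map_mul]
      change s.s g (s.s (h'.restrictScalars k) a) = s.s g a
      rw [a.2 h']
    have hari : (sE E s hEΩ).ArisesFrom (V.comap (algebraMap (FE E s) Ω)) := by
      refine ⟨?_, ?_, ?_, V, rfl, hVs⟩
      · intro h
        have h1 := htop (FE E s) V h
        apply hWtop
        rw [eq_top_iff]
        intro z _
        have h2 : s.s g⁻¹ z ∈ V := by rw [h1]; exact ValuationSubring.mem_top _
        rw [hVm, hg] at h2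
        exact h2
      · intro c
        rw [ValuationSubring.mem_comap, ← IsScalarTower.algebraMap_apply E (FE E s) Ω, hVm, hgE]
        exact hEW _
      · intro a ha
        rw [ValuationSubring.mem_comap, hVm] at ha
        have h1 : (⟨s.s g a, hmemg a⟩ : FE E s) ∈ O' := by
          rw [← hW]
          exact ha
        obtain ⟨c, hc⟩ := hO3 _ h1
        refine ⟨g⁻¹.restrictNormal E c, ?_⟩
        rw [val_comap, hVval, map_sub, map_sub, ← IsScalarTower.algebraMap_apply E (FE E s) Ω]
        rw [← hW, val_comap, map_sub, ← IsScalarTower.algebraMap_apply E (FE E s) Ω] at hc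
        have h2 : s.s g (algebraMap E Ω (g⁻¹.restrictNormal E c)) = algebraMap E Ω c := by
          rw [← hgE, hg]
        rw [h2]
        exact hc
    have h1 := huniq _ hari
    rw [← hW] at h1
    have h2 := hunique V W hVs hWs h1
    rw [← hVm, h2]
  have hsval : ∀ (g : B ≃ₐ[k] B) (z : Ω), W.valuation z < 1 → W.valuation (s.s g z) < 1 := by
    intro g z hz
    rw [val_lt_iff] at hz ⊢
    rcases hz with rfl | hz
    · left
      exact map_zero _
    · right
      rw [← map_inv₀, hstab]
      exact hz
  -- elements of `F` which are congruent to an element of `E`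
  have hcon : ∀ (a : F) (e : E), W.valuation (algebraMap F Ω a - algebraMap E Ω e) < 1 →
      ∃ c : k, algebraMap k E c = e := by
    intro a e h
    have h1 : ∀ g : B ≃ₐ[k] B, g (algebraMap E B e) = algebraMap E B e := by
      intro g
      have h2 := hsval g _ h
      rw [map_sub, (s.s g).commutes, hgE] at h2
      have h3 : W.valuation (algebraMap E Ω (e - g.restrictNormal E e)) < 1 := by
        have h4 : algebraMap E Ω (e - g.restrictNormal E e) =
            (algebraMap F Ω a - algebraMap E Ω (g.restrictNormal E e)) -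
            (algebraMap F Ω a - algebraMap E Ω e) := by
          rw [map_sub]; ring
        rw [h4]
        exact lt_of_le_of_lt (Valuation.map_sub _ _ _) (max_lt h2 h)
      have h5 := sub_eq_zero.1 (val_unit W hEW h3)
      rw [← AlgEquiv.restrictNormal_commutes g E e, ← h5]
    obtain ⟨c, hc⟩ := fixed_mem (algebraMap E B e) h1
    refine ⟨c, (algebraMap E B).injective ?_⟩
    rw [← hc, ← IsScalarTower.algebraMap_apply k E B]
  have hkW : ∀ c : k, algebraMap k Ω c ∈ W := by
    intro c
    rw [IsScalarTower.algebraMap_apply k E Ω]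
    exact hEW _
  have hFW : ∀ a : F, algebraMap F Ω a ∈ W → algebraMap F (FE E s) a ∈ O' := by
    intro a ha
    rw [← hW, ValuationSubring.mem_comap, ← IsScalarTower.algebraMap_apply F (FE E s) Ω]
    exact ha
  refine ⟨W.comap (algebraMap F Ω), ⟨?_, ?_, ?_, W, rfl, hstab⟩, ?_, ?_⟩
  · intro h
    exact hWtop (htop F W h)
  · intro c
    rw [ValuationSubring.mem_comap, ← IsScalarTower.algebraMap_apply k F Ω]
    exact hkW c
  · intro a ha
    rw [ValuationSubring.mem_comap] at ha
    obtain ⟨e, he⟩ := hO3 _ (hFW a ha)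
    rw [← hW, val_comap, map_sub, ← IsScalarTower.algebraMap_apply E (FE E s) Ω,
      ← IsScalarTower.algebraMap_apply F (FE E s) Ω] at he
    obtain ⟨c, rfl⟩ := hcon a e he
    refine ⟨c, ?_⟩
    rw [val_comap, map_sub, ← IsScalarTower.algebraMap_apply k F Ω,
      IsScalarTower.algebraMap_apply k E Ω]
    exact he
  · -- uniqueness
    intro O₁ hO₁
    obtain ⟨g1, g2, g3, W₁, hW₁, hW₁s⟩ := hO₁
    have hk1 : ∀ c : k, algebraMap k Ω c ∈ W₁ := by
      intro c
      have h1 := g2 c
      rw [← hW₁, ValuationSubring.mem_comap, ← IsScalarTower.algebraMap_apply k F Ω] at h1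
      exact h1
    have hB1 : ∀ b : B, s.j b ∈ W₁ := by
      intro b
      exact alg_mem W₁ hk1 ((Algebra.IsAlgebraic.isAlgebraic (R := k) b).algHom s.j)
    have hari : (sE E s hEΩ).ArisesFrom (W₁.comap (algebraMap (FE E s) Ω)) := by
      refine ⟨?_, ?_, ?_, W₁, rfl, fun h z => hW₁s (h.restrictScalars k) z⟩
      · intro h
        apply g1
        rw [← hW₁, htop (FE E s) W₁ h]
        exact eq_top_iff.2 fun z _ => ValuationSubring.mem_top _
      · intro c
        rw [ValuationSubring.mem_comap, ← IsScalarTower.algebraMap_apply E (FE E s) Ω, hEΩ]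
        exact hB1 _
      · intro a ha
        rw [ValuationSubring.mem_comap] at ha
        obtain ⟨b, hb⟩ := res_alg W₁ (F := F) s.j hk1 (by
          intro a ha
          obtain ⟨c, hc⟩ := g3 a (by rw [← hW₁]; exact ha)
          refine ⟨c, ?_⟩
          rw [← hW₁, val_comap, map_sub, ← IsScalarTower.algebraMap_apply k F Ω] at hc
          exact hc) _ ha
        have h1 : ∀ h : B ≃ₐ[E] B, h b = b := by
          intro h
          have h2 : W₁.valuation (s.s (h.restrictScalars k)
              (algebraMap (FE E s) Ω a - s.j b)) < 1 := by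
            rw [val_lt_iff] at hb ⊢
            rcases hb with h3 | h3
            · left
              rw [h3, map_zero]
            · right
              rw [← map_inv₀, hW₁s]
              exact h3
          rw [map_sub, s.sec] at h2
          have h4 : s.s (h.restrictScalars k) (algebraMap (FE E s) Ω a) =
              algebraMap (FE E s) Ω a := a.2 h
          rw [h4] at h2
          have h5 : W₁.valuation (s.j (b - h b)) < 1 := by
            have h6 : s.j (b - h b) = (algebraMap (FE E s) Ω a - s.j ((h.restrictScalars k) b)) -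
                (algebraMap (FE E s) Ω a - s.j b) := by
              rw [map_sub]
              change s.j b - s.j (h b) = _ - s.j (h b) - _
              ring
            rw [h6]
            exact lt_of_le_of_lt (Valuation.map_sub _ _ _) (max_lt h2 hb)
          letI : Algebra B Ω := (s.j : B →+* Ω).toAlgebra
          exact (sub_eq_zero.1 (val_unit W₁ (k := B) hB1 h5)).symm
        obtain ⟨c, hc⟩ := fixed_mem (k := E) b h1
        refine ⟨c, ?_⟩
        rw [val_comap, map_sub, ← IsScalarTower.algebraMap_apply E (FE E s) Ω, hEΩ, hc]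
        exact hb
    have h1 := huniq _ hari
    rw [← hW] at h1
    have h2 := hunique W₁ W (fun h z => hW₁s (h.restrictScalars k) z) hWs h1
    rw [← hW₁, h2]
  · -- the point
    rcases hpt with ⟨e, he, hxe⟩ | ⟨hodd, hxe⟩
    · left
      rw [mem_nonunits_iff_lt, ← hW, val_comap, map_sub,
        ← IsScalarTower.algebraMap_apply E (FE E s) Ω,
        ← IsScalarTower.algebraMap_apply F (FE E s) Ω] at hxe
      obtain ⟨c, rfl⟩ := hcon x e hxe
      refine ⟨c, ?_, ?_⟩
      · rw [eval_map_algebraMap, aeval_algebraMap_apply, map_eq_zero] at he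
        rwa [← coe_aeval_eq_eval]
      · rw [mem_nonunits_iff_lt, val_comap, map_sub, ← IsScalarTower.algebraMap_apply k F Ω,
          IsScalarTower.algebraMap_apply k E Ω]
        exact hxe
    · right
      rw [natDegree_map] at hodd
      refine ⟨hodd, ?_⟩
      rw [mem_nonunits_iff_lt, ← hW, val_comap, map_inv₀,
        ← IsScalarTower.algebraMap_apply F (FE E s) Ω] at hxe
      rw [mem_nonunits_iff_lt, val_comap, map_inv₀]
      exact hxe

end Pool.Agent.Zk95.HD
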